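import Pool.Agent.H.MP_62749c_al.Main

set_option maxHeartbeats 400000

namespace Pool.Agent.H.MP_e5a626_al

open Pool.Agent.H.MP_62749c_al Monoid Filter

/-- the coherent monoid -/
abbrev M : Type := FreeMonoid (Fin 5) × Multiplicative ℕ
/-- the free product -/
abbrev C : Type := Coprod (FreeMonoid (Fin 2)) M
/-- all letters -/
abbrev L : Type := Fin 2 ⊕ Fin 5

theorem toFree_inj {α : Type*} :
    Function.Injective (FreeMonoid.lift (FreeGroup.of : α → FreeGroup α)) := by
  classical
  have : ∀ l : List α, (FreeMonoid.lift (FreeGroup.of : α → FreeGroup α)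
      (FreeMonoid.ofList l)).toWord = l.map (·, true) := by
    intro l
    have e : FreeMonoid.lift (FreeGroup.of : α → FreeGroup α) (FreeMonoid.ofList l) =
        FreeGroup.mk (l.map (·, true)) := by
      induction l with
      | nil => rfl
      | cons a l ih =>
        rw [FreeMonoid.ofList_cons, map_mul, ih, FreeMonoid.lift_eval_of]
        exact FreeGroup.mul_mk
    rw [e, FreeGroup.toWord_mk, FreeGroup.IsReduced.reduce_eq]
    refine List.Pairwise.isChain (List.pairwise_of_forall_mem_list fun a ha b hb _ => ?_)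
    obtain ⟨_, -, rfl⟩ := List.mem_map.mp ha
    obtain ⟨_, -, rfl⟩ := List.mem_map.mp hb
    rfl
  intro u v h
  have h1 := this u.toList
  have h2 := this v.toList
  rw [FreeMonoid.ofList_toList] at h1 h2
  rw [h, h2] at h1
  exact FreeMonoid.toList.injective
    (List.map_injective_iff.mpr (fun a b h => (Prod.ext_iff.mp h).1) h1).symm

/-- embedding of `M` -/
def jM : M →* FreeGroup (Fin 5) × Multiplicative ℤ :=
  (FreeMonoid.lift FreeGroup.of).prodMap (AddMonoidHom.toMultiplicative (Nat.castAddMonoidHom ℤ))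

theorem jM_inj : Function.Injective jM := by
  rintro ⟨a, b⟩ ⟨c, d⟩ h
  have h1 : FreeMonoid.lift FreeGroup.of a = FreeMonoid.lift FreeGroup.of c := congrArg Prod.fst h
  have h2 : ((b.toAdd : ℕ) : ℤ) = (d.toAdd : ℕ) := congrArg (fun p => p.2.toAdd) h
  rw [toFree_inj h1, Multiplicative.toAdd.injective (Nat.cast_injective h2)]

theorem coherent_M : MalcevCoherent M :=
  coherent_of_fng jM jM_inj fun _ _ => main_fng ⊤ ⊤ _

/-- shift of a tape -/
def shift : Equiv.Perm (ℤ → ℤ) where
  toFun f i := f (i - 1)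
  invFun f i := f (i + 1)
  left_inv f := by funext i; simp
  right_inv f := by funext i; simp

/-- increment of the cell at the origin -/
def bump : Equiv.Perm (ℤ → ℤ) := Equiv.addRight (Pi.single 0 1)

theorem bump_pow (k : ℕ) (f : ℤ → ℤ) : (bump ^ k) f = f + Pi.single 0 (k : ℤ) := by
  induction k with
  | zero => simp
  | succ k ih =>
    rw [pow_succ', Equiv.Perm.mul_apply, ih]
    simp [bump, Pi.single_add, add_assoc]

/-- letters -/
def P1 : C →* FreeMonoid L :=
  Coprod.lift (FreeMonoid.map Sum.inl) ((FreeMonoid.map Sum.inr).comp (MonoidHom.fst _ _))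

/-- weights -/
def P2 : C →* Equiv.Perm (ℤ → ℤ) :=
  Coprod.lift (FreeMonoid.lift fun _ => shift)
    ((powersHom _ bump).comp (MonoidHom.snd _ _))

/-- outer letter -/
def ou (a : Fin 2) : C := Coprod.inl (FreeMonoid.of a)
/-- inner letter -/
def inn (a : Fin 5) : C := Coprod.inr (FreeMonoid.of a, 1)
/-- weight letter -/
def tau : C := Coprod.inr (1, Multiplicative.ofAdd 1)

@[simp] theorem P1_ou (a) : P1 (ou a) = FreeMonoid.of (Sum.inl a) := by simp [P1, ou]
@[simp] theorem P1_inn (a) : P1 (inn a) = FreeMonoid.of (Sum.inr a) := by simp [P1, inn]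
@[simp] theorem P1_tau : P1 tau = 1 := by simp [P1, tau]
@[simp] theorem P2_ou (a) : P2 (ou a) = shift := by simp [P2, ou]
@[simp] theorem P2_inn (a) : P2 (inn a) = 1 := by simp [P2, inn]
@[simp] theorem P2_tau : P2 tau = bump := by simp [P2, tau]

theorem tau_inn (a) : tau * inn a = inn a * tau := by
  rw [tau, inn, ← map_mul, ← map_mul]; simp

theorem C_ind {Q : C → Prop} (h1 : Q 1) (ho : ∀ a w, Q w → Q (ou a * w))
    (hi : ∀ a w, Q w → Q (inn a * w)) (ht : ∀ w, Q w → Q (tau * w)) (w : C) : Q w := by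
  have : ∀ g : C, ∀ w, Q w → Q (g * w) := by
    intro g
    induction g using Coprod.induction_on with
    | inl m =>
      induction m using FreeMonoid.inductionOn' with
      | one => intro w hw; simpa using hw
      | of_mul a m ih => intro w hw; rw [map_mul, mul_assoc]; exact ho a _ (ih w hw)
    | inr m =>
      obtain ⟨m, k⟩ := m
      have e : (Coprod.inr (m, k) : C) = Coprod.inr (m, 1) * tau ^ k.toAdd := by
        rw [tau, ← map_pow, ← map_mul]
        congr 1
        ext <;> simp [← ofAdd_nsmul]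
      rw [e]
      intro w hw
      rw [mul_assoc]
      have h2 : Q (tau ^ k.toAdd * w) := by
        induction k.toAdd with
        | zero => simpa using hw
        | succ j ih => rw [pow_succ', mul_assoc]; exact ht _ ih
      clear e
      induction m using FreeMonoid.inductionOn' with
      | one => have : ((1, 1) : M) = 1 := rfl
               rw [this, map_one, one_mul]; exact h2
      | of_mul a m ih =>
        have : ((FreeMonoid.of a * m, 1) : M) = (FreeMonoid.of a, 1) * (m, 1) := by simp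
        rw [this, map_mul, mul_assoc]; exact hi a _ ih
    | mul x y hx hy => intro w hw; rw [mul_assoc]; exact hx _ (hy w hw)
  simpa using this w 1 h1

theorem W_inv (w : C) : (∀ i, i < 0 → P2 w 0 i = 0) ∧ ∀ i, 0 ≤ P2 w 0 i := by
  induction w using C_ind with
  | h1 => simp
  | ho a w ih =>
    simp only [map_mul, P2_ou, Equiv.Perm.mul_apply]
    exact ⟨fun i hi => ih.1 (i - 1) (by omega), fun i => ih.2 (i - 1)⟩
  | hi a w ih => simpa using ih
  | ht w ih =>
    simp only [map_mul, P2_tau, Equiv.Perm.mul_apply, bump, Equiv.coe_addRight, Pi.add_apply]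
    refine ⟨fun i hi => by rw [ih.1 i hi, Pi.single_eq_of_ne hi.ne]; rfl, fun i => ?_⟩
    have := ih.2 i
    by_cases h : i = 0
    · subst h; simp; omega
    · rw [Pi.single_eq_of_ne h]; omega

/-- rebuilding an element -/
def Rb : List L → (ℕ → ℤ) → C
  | [], f => tau ^ (f 0).toNat
  | Sum.inl a :: l, f => tau ^ (f 0).toNat * (ou a * Rb l fun i => f (i + 1))
  | Sum.inr a :: l, f => inn a * Rb l f

theorem tau_Rb (l : List L) (f g : ℕ → ℤ) (hf : 0 ≤ f 0) (h0 : g 0 = f 0 + 1)
    (h1 : ∀ i, g (i + 1) = f (i + 1)) : tau * Rb l f = Rb l g := by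
  have e : (g 0).toNat = (f 0).toNat + 1 := by omega
  induction l with
  | nil => simp only [Rb, e, pow_succ']
  | cons a l ih =>
    rcases a with a | a
    · simp only [Rb, e, pow_succ', h1, mul_assoc]
    · simp only [Rb]
      rw [← mul_assoc, tau_inn, mul_assoc, ih]

theorem rebuild (w : C) : w = Rb (P1 w).toList fun n => P2 w 0 n := by
  induction w using C_ind with
  | h1 => simp [Rb]
  | ho a w ih =>
    simp only [map_mul, P1_ou, P2_ou, FreeMonoid.toList_of_mul, Rb, Equiv.Perm.mul_apply]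
    have e1 : shift (P2 w 0) ((0 : ℕ) : ℤ) = 0 := (W_inv w).1 _ (by simp)
    have e2 : (fun i : ℕ => shift (P2 w 0) ((i + 1 : ℕ) : ℤ)) = fun n : ℕ => P2 w 0 n := by
      funext i; simp [shift]
    rw [e1, e2, ← ih]; simp
  | hi a w ih =>
    simp only [map_mul, P1_inn, P2_inn, FreeMonoid.toList_of_mul, Rb, one_mul]
    rw [← ih]
  | ht w ih =>
    simp only [map_mul, P1_tau, P2_tau, one_mul, Equiv.Perm.mul_apply]
    rw [← tau_Rb _ (fun n => P2 w 0 n) _ ((W_inv w).2 _) (by simp [bump]) (fun i => ?_), ← ih]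
    simp only [bump, Equiv.coe_addRight, Pi.add_apply]
    rw [Pi.single_eq_of_ne (by omega), add_zero]

/-- embedding of the free product -/
def jC : C →* FreeGroup L × Equiv.Perm (ℤ → ℤ) :=
  ((FreeMonoid.lift FreeGroup.of).comp P1).prod P2

theorem jC_inj : Function.Injective jC := by
  intro u v h
  have h1 : P1 u = P1 v := toFree_inj (congrArg Prod.fst h)
  have h2 : P2 u = P2 v := congrArg Prod.snd h
  rw [rebuild u, rebuild v, ← h1, ← h2, ← rebuild u]

/-- generator names -/
inductive Gn : Type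
  | x | p | y | q | z | x' | p' | y' | q' | z'
  deriving DecidableEq

instance : Finite Gn :=
  Finite.of_surjective ![Gn.x, .p, .y, .q, .z, .x', .p', .y', .q', .z'] (by
    intro g
    cases g
    exacts [⟨0, rfl⟩, ⟨1, rfl⟩, ⟨2, rfl⟩, ⟨3, rfl⟩, ⟨4, rfl⟩, ⟨5, rfl⟩, ⟨6, rfl⟩, ⟨7, rfl⟩,
      ⟨8, rfl⟩, ⟨9, rfl⟩])

open Gn

/-- generators -/
def gen : Gn → C
  | x => ou 0
  | p => inn 0 * inn 1 * tau
  | y => inn 0 * inn 2 * inn 3
  | q => inn 4 * inn 3
  | z => ou 1
  | x' => ou 0 * inn 0
  | p' => inn 1 * inn 0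
  | y' => inn 2
  | q' => inn 3 * inn 4 * tau
  | z' => inn 3 * ou 1

/-- their letters -/
def code : Gn → List L
  | x => [.inl 0]
  | p => [.inr 0, .inr 1]
  | y => [.inr 0, .inr 2, .inr 3]
  | q => [.inr 4, .inr 3]
  | z => [.inl 1]
  | x' => [.inl 0, .inr 0]
  | p' => [.inr 1, .inr 0]
  | y' => [.inr 2]
  | q' => [.inr 3, .inr 4]
  | z' => [.inr 3, .inl 1]

/-- their weights -/
def act : Gn → Equiv.Perm (ℤ → ℤ)
  | x => shift
  | p => bump
  | z => shift
  | x' => shift
  | q' => bump
  | z' => shift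
  | _ => 1

/-- value of a word -/
def ev (u : List Gn) : C := (u.map gen).prod
/-- letters of a word -/
def cw (u : List Gn) : List L := u.flatMap code

@[simp] theorem cw_nil : cw [] = [] := rfl
@[simp] theorem cw_cons (g u) : cw (g :: u) = code g ++ cw u := rfl
@[simp] theorem ev_nil : ev [] = 1 := rfl
@[simp] theorem ev_cons (g u) : ev (g :: u) = gen g * ev u := rfl
@[simp] theorem ev_append (u v) : ev (u ++ v) = ev u * ev v := by simp [ev]

theorem P1_ev (u : List Gn) : (P1 (ev u)).toList = cw u := by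
  induction u with
  | nil => simp
  | cons g u ih =>
    rw [ev_cons, map_mul, FreeMonoid.toList_mul, ih, cw_cons]
    congr 1
    cases g <;> simp [gen, code]

theorem P2_ev (u : List Gn) : P2 (ev u) = val act u := by
  induction u with
  | nil => simp
  | cons g u ih =>
    rw [ev_cons, map_mul, ih, val_cons]
    congr 1
    cases g <;> simp [gen, act]

/-- left block -/
def bl (n m : ℕ) (u : List Gn) : List Gn :=
  x :: (List.replicate n p ++ y :: (List.replicate m q ++ z :: u))
/-- right block -/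
def br (n m : ℕ) (u : List Gn) : List Gn :=
  x' :: (List.replicate n p' ++ y' :: (List.replicate m q' ++ z' :: u))

theorem parse2 : ∀ (u v : List Gn), Sum.inr 3 :: cw u = cw v → ∃ m u2 v2,
    u = List.replicate m q ++ z :: u2 ∧ v = List.replicate m q' ++ z' :: v2 ∧ cw u2 = cw v2
  | [], v, h => by
    rcases v with _ | ⟨g, v⟩
    · simp at h
    · cases g <;> simp [code] at h
  | g :: u, v, h => by
    rcases v with _ | ⟨k, v⟩
    · simp at h
    · cases k <;> cases g <;> simp [code] at h
      · obtain ⟨m, u2, v2, rfl, rfl, h'⟩ := parse2 u v h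
        exact ⟨m + 1, u2, v2, rfl, rfl, h'⟩
      · exact ⟨0, u, v, rfl, rfl, h⟩

theorem parse1 : ∀ (u v : List Gn), cw u = Sum.inr 0 :: cw v → ∃ n m u2 v2,
    x :: u = bl n m u2 ∧ x' :: v = br n m v2 ∧ cw u2 = cw v2
  | [], v, h => by simp at h
  | g :: u, v, h => by
    rcases v with _ | ⟨k, v⟩
    · cases g <;> simp [code] at h
    · cases g <;> cases k <;> simp [code] at h
      · obtain ⟨n, m, u2, v2, h1, h2, h⟩ := parse1 u v h
        refine ⟨n + 1, m, u2, v2, ?_, ?_, h⟩
        · simp only [bl, List.cons.injEq, true_and] at h1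
          rw [h1]; rfl
        · simp only [br, List.cons.injEq, true_and] at h2
          rw [h2]; rfl
      · obtain ⟨m, u2, v2, rfl, rfl, h'⟩ := parse2 u v h
        exact ⟨0, m, u2, v2, rfl, rfl, h'⟩

theorem parse0 (g k : Gn) (u v : List Gn) (h : cw (g :: u) = cw (k :: v)) :
    (g = k ∧ cw u = cw v) ∨ (g = x ∧ k = x' ∧ cw u = Sum.inr 0 :: cw v) ∨
      (g = x' ∧ k = x ∧ cw v = Sum.inr 0 :: cw u) := by
  cases g <;> cases k <;> simp [code] at h ⊢ <;> first | exact h | exact h.symm

theorem val_replicate {K β : Type*} [Group K] (ψ : β → K) (n : ℕ) (a : β) :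
    val ψ (List.replicate n a) = ψ a ^ n := by simp [val]

theorem weights {n m : ℕ} {u v : List Gn} (h : val act (bl n m u) 0 = val act (br n m v) 0) :
    n = m ∧ val act u 0 = val act v 0 := by
  simp only [bl, br, val_cons, val_append, val_replicate, act, one_pow, one_mul,
    Equiv.Perm.mul_apply, EmbeddingLike.apply_eq_iff_eq] at h
  have h0 := congrFun h 0
  have e1 : shift (val act u 0) 0 = 0 := by
    rw [← P2_ev]; exact (W_inv _).1 _ (by simp)
  have e2 : shift (val act v 0) 0 = 0 := by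
    rw [← P2_ev]; exact (W_inv _).1 _ (by simp)
  simp only [bump_pow, Pi.add_apply, e1, e2, Pi.single_eq_same, zero_add, Nat.cast_inj] at h0
  subst h0
  simpa using h

/-- the flip over the origin -/
def flip : Equiv.Perm (ℤ × Bool) :=
  Function.Involutive.toPerm (fun a => (a.1, if a.1 = 0 then !a.2 else a.2)) (by
    rintro ⟨i, b⟩
    by_cases h : i = 0 <;> simp [h])

/-- lifting a permutation -/
def up : Equiv.Perm ℤ →* Equiv.Perm (ℤ × Bool) where
  toFun σ := Equiv.prodCongr σ (Equiv.refl _)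
  map_one' := rfl
  map_mul' _ _ := rfl

theorem up_apply (σ : Equiv.Perm ℤ) (a : ℤ × Bool) : up σ a = (σ a.1, a.2) := rfl

theorem flip_up (σ : Equiv.Perm ℤ) : flip * up σ * flip⁻¹ = up σ ↔ σ 0 = 0 := by
  rw [mul_inv_eq_iff_eq_mul]
  constructor
  · intro h
    have := congrArg Prod.snd (Equiv.ext_iff.mp h (0, true))
    by_contra h0
    simp [flip, up_apply, h0] at this
  · intro h
    ext ⟨i, b⟩
    · simp [flip, up_apply]
    · have : σ i = 0 ↔ i = 0 := by rw [← h, σ.apply_eq_iff_eq, h]
      simp [flip, up_apply, this]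

/-- step down -/
def dn : Equiv.Perm ℤ := Equiv.subRight 1
/-- step up with a jump -/
def jp (N : ℕ) : Equiv.Perm ℤ := Equiv.addRight 1 * Equiv.swap (N : ℤ) (N + 1)

theorem dn_pow (n : ℕ) (i : ℤ) : (dn ^ n) i = i - n := by
  induction n with
  | zero => simp
  | succ n ih => rw [pow_succ', Equiv.Perm.mul_apply, ih]; simp [dn]; ring

theorem jp_pow (N n : ℕ) (h : n ≤ N) : (jp N ^ n) 0 = n := by
  induction n with
  | zero => simp
  | succ n ih =>
    rw [pow_succ', Equiv.Perm.mul_apply, ih (by omega), jp, Equiv.Perm.mul_apply,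
      Equiv.swap_apply_of_ne_of_ne (by omega) (by omega)]
    simp

theorem jp_pow' (N : ℕ) : (jp N ^ (N + 1)) 0 = N + 2 := by
  rw [pow_succ', Equiv.Perm.mul_apply, jp_pow N N le_rfl, jp, Equiv.Perm.mul_apply,
    Equiv.swap_apply_left]
  simp; ring

/-- test assignments -/
def th (N : ℕ) : Gn → Equiv.Perm (ℤ × Bool)
  | p => up dn
  | q => up (jp N)
  | p' => flip * up dn * flip⁻¹
  | q' => flip * up (jp N) * flip⁻¹
  | _ => 1

theorem th_bl (N n u) : val (th N) (bl n n u) = up (dn ^ n * jp N ^ n) * val (th N) u := by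
  simp [bl, val_replicate, th, mul_assoc]

theorem th_br (N n u) : val (th N) (br n n u) =
    flip * up (dn ^ n * jp N ^ n) * flip⁻¹ * val (th N) u := by
  simp only [br, val_replicate, th, val_cons, val_append, conj_pow, one_mul, map_mul, map_pow]
  group

theorem C1 : ∀ (k : ℕ) (u v : List Gn), u.length = k → cw u = cw v → val act u 0 = val act v 0 →
    ∀ᶠ N in atTop, val (th N) u = val (th N) v := by
  intro k
  induction k using Nat.strong_induction_on with
  | _ k ih =>
    have blk : ∀ n m u2 v2, (∀ᶠ N in atTop, val (th N) u2 = val (th N) v2) → n = m →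
        ∀ᶠ N in atTop, val (th N) (bl n m u2) = val (th N) (br n m v2) := by
      rintro n _ u2 v2 h rfl
      filter_upwards [h, eventually_ge_atTop n] with N h1 h2
      rw [th_bl, th_br, h1, (flip_up _).mpr]
      rw [Equiv.Perm.mul_apply, jp_pow N n h2, dn_pow, sub_self]
    intro u v hk h1 h2
    rcases u with _ | ⟨g, u⟩
    · rcases v with _ | ⟨g, v⟩
      · simp
      · cases g <;> simp [code] at h1
    rcases v with _ | ⟨g', v⟩
    · cases g <;> simp [code] at h1
    rcases parse0 g g' u v h1 with ⟨rfl, h⟩ | ⟨rfl, rfl, h⟩ | ⟨rfl, rfl, h⟩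
    · have := ih u.length (by simp at hk; omega) u v rfl h (by simpa using h2)
      filter_upwards [this] with N hN
      simp [hN]
    · obtain ⟨n, m, u2, v2, e1, e2, h⟩ := parse1 u v h
      rw [e1, e2] at h2 ⊢
      obtain ⟨h3, h4⟩ := weights h2
      refine blk n m u2 v2 (ih u2.length ?_ u2 v2 rfl h h4) h3
      rw [← hk, e1]; simp [bl]; omega
    · obtain ⟨n, m, v2, u2, e1, e2, h⟩ := parse1 v u h
      rw [e1, e2] at h2 ⊢
      obtain ⟨h3, h4⟩ := weights h2.symm
      have := ih u2.length (by rw [← hk, e2]; simp [br]; omega) u2 v2 rfl h.symm h4.symm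
      filter_upwards [blk n m v2 u2 (this.mono fun _ h => h.symm) h3] with N hN using hN.symm

theorem C1' {u v : List Gn} (h : ev u = ev v) : ∀ᶠ N in atTop, val (th N) u = val (th N) v :=
  C1 _ u v rfl (by rw [← P1_ev, h, P1_ev]) (by rw [← P2_ev, h, P2_ev])

theorem cw_rel (n : ℕ) : cw (bl n n []) = cw (br n n []) := by
  have h1 : ∀ n (l : List L), cw (List.replicate n p) ++ Sum.inr 0 :: l =
      Sum.inr 0 :: (cw (List.replicate n p') ++ l) := by
    intro n l
    induction n with
    | zero => rfl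
    | succ n ih => simp [List.replicate_succ, code, ih]
  have h2 : ∀ n (l : List L), Sum.inr 3 :: (cw (List.replicate n q) ++ l) =
      cw (List.replicate n q') ++ Sum.inr 3 :: l := by
    intro n l
    induction n with
    | zero => rfl
    | succ n ih => simp [List.replicate_succ, code, ← ih]
  have ap : ∀ u v, cw (u ++ v) = cw u ++ cw v := fun u v => List.flatMap_append
  simp [bl, br, ap, code, h1, h2]

theorem ev_rel (n : ℕ) : ev (bl n n []) = ev (br n n []) := by
  refine jC_inj (Prod.ext ?_ ?_)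
  · have : P1 (ev (bl n n [])) = P1 (ev (br n n [])) :=
      FreeMonoid.toList.injective (by rw [P1_ev, P1_ev, cw_rel])
    show FreeMonoid.lift FreeGroup.of (P1 _) = FreeMonoid.lift FreeGroup.of (P1 _)
    rw [this]
  · show P2 _ = P2 _
    rw [P2_ev, P2_ev]
    simp [bl, br, val_replicate, act]

theorem not_coherent : ¬ MalcevCoherent C := by
  intro h
  obtain ⟨n, φ, ρ, hcl, hρ, hiff⟩ := h _ (Set.finite_range gen)
  have h1 : ∀ a, ∃ w, ev w = φ a := by
    intro a
    have : φ a ∈ Subsemigroup.closure (Set.range gen) :=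
      hcl ▸ Subsemigroup.subset_closure ⟨a, rfl⟩
    generalize φ a = c at this ⊢
    induction this using Subsemigroup.closure_induction with
    | mem _ h => obtain ⟨g, rfl⟩ := h; exact ⟨[g], by simp⟩
    | mul _ _ _ _ h h' =>
      obtain ⟨u, rfl⟩ := h
      obtain ⟨v, rfl⟩ := h'
      exact ⟨u ++ v, ev_append _ _⟩
  have h2 : ∀ g, ∃ t : FreeSemigroup (Fin n), FreeSemigroup.lift φ t = gen g := by
    intro g
    have : gen g ∈ Subsemigroup.closure (Set.range φ) :=
      hcl ▸ Subsemigroup.subset_closure ⟨g, rfl⟩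
    generalize gen g = c at this ⊢
    induction this using Subsemigroup.closure_induction with
    | mem _ h => obtain ⟨a, rfl⟩ := h; exact ⟨FreeSemigroup.of a, by simp⟩
    | mul _ _ _ _ h h' =>
      obtain ⟨u, hu⟩ := h
      obtain ⟨v, hv⟩ := h'
      exact ⟨u * v, by rw [map_mul, hu, hv]⟩
  choose w hw using h1
  choose t ht using h2
  let κ : ℕ → Fin n → Equiv.Perm (ℤ × Bool) := fun N a => val (th N) (w a)
  have fl : ∀ U : FreeSemigroup (Fin n), ∃ l, ev l = FreeSemigroup.lift φ U ∧
      ∀ N, val (th N) l = FreeSemigroup.lift (κ N) U := by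
    intro U
    induction U using FreeSemigroup.recOnMul with
    | ih1 a => exact ⟨w a, by simp [hw], fun N => by simp [κ]⟩
    | ih2 a U h h' =>
      obtain ⟨l, h1, h2⟩ := h
      obtain ⟨l', h3, h4⟩ := h'
      exact ⟨l ++ l', by rw [ev_append, map_mul, h1, h3],
        fun N => by rw [val_append, map_mul, h2, h4]⟩
  have e1 : ∀ᶠ N in atTop, ∀ r ∈ ρ,
      FreeSemigroup.lift (κ N) r.1 = FreeSemigroup.lift (κ N) r.2 := by
    rw [eventually_all_finite hρ]
    intro r hr
    obtain ⟨l, h1, h2⟩ := fl r.1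
    obtain ⟨l', h3, h4⟩ := fl r.2
    have : FreeSemigroup.lift φ r.1 = FreeSemigroup.lift φ r.2 := by
      rw [hiff, pres_iff, pos, pos, ← lift_eq_val, ← lift_eq_val]
      exact Subgroup.subset_normalClosure ⟨r, hr, rfl⟩
    filter_upwards [C1' (h1.trans (this.trans h3.symm))] with N hN
    rw [← h2, ← h4, hN]
  have e2 : ∀ᶠ N in atTop, ∀ g, FreeSemigroup.lift (κ N) (t g) = th N g := by
    rw [eventually_all]
    intro g
    obtain ⟨l, h1, h2⟩ := fl (t g)
    filter_upwards [C1' (u := l) (v := [g]) (by rw [h1, ht]; simp)] with N hN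
    rw [← h2, hN]; simp
  obtain ⟨N, k1, k2⟩ := (e1.and e2).exists
  have bk : ∀ (l : List Gn) (g : Gn), ∃ U : FreeSemigroup (Fin n),
      FreeSemigroup.lift φ U = ev (g :: l) ∧ FreeSemigroup.lift (κ N) U = val (th N) (g :: l) := by
    intro l
    induction l with
    | nil => intro g; exact ⟨t g, by simp [ht], by simp [k2]⟩
    | cons a l ih =>
      intro g
      obtain ⟨U, h1, h2⟩ := ih a
      exact ⟨t g * U, by rw [map_mul, ht, h1]; rfl, by rw [map_mul, k2, h2, ← val_cons]⟩
  obtain ⟨U, u1, u2⟩ := bk (List.replicate (N + 1) p ++ y :: (List.replicate (N + 1) q ++ [z])) x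
  obtain ⟨V, v1, v2⟩ :=
    bk (List.replicate (N + 1) p' ++ y' :: (List.replicate (N + 1) q' ++ [z'])) x'
  have h3 : FreeSemigroup.lift φ U = FreeSemigroup.lift φ V := by
    rw [u1, v1]; exact ev_rel (N + 1)
  rw [hiff, pres_iff] at h3
  have h4 : Subgroup.normalClosure (relators ρ) ≤ (FreeGroup.lift (κ N)).ker := by
    refine Subgroup.normalClosure_le_normal ?_
    rintro _ ⟨r, hr, rfl⟩
    have := k1 r hr
    rw [lift_eq_val, lift_eq_val] at this
    rw [lift_eq_val, lift_eq_val, ← pos, ← pos]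
    simp [this]
  have h5 := h4 h3
  rw [MonoidHom.mem_ker, map_mul, map_inv, lift_pos, lift_pos, mul_inv_eq_one, ← lift_eq_val,
    ← lift_eq_val, u2, v2] at h5
  have h6 : val (th N) (bl (N + 1) (N + 1) []) = val (th N) (br (N + 1) (N + 1) []) := h5
  rw [th_bl, th_br, mul_left_inj, eq_comm, flip_up, Equiv.Perm.mul_apply, jp_pow', dn_pow] at h6
  push_cast at h6
  omega

end Pool.Agent.H.MP_e5a626_al
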