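import Pool.Agent.H.MP_e5a626_al.Noeth
import Pool.Agent.H.MP_e5a626_al.Cex

set_option maxHeartbeats 400000

namespace Pool.Agent.H.MP_e5a626_al.Gen

open Pool.Agent.H.MP_62749c_al Monoid Subgroup

variable {X G : Type*} [Group G]

/-- shift of a tape -/
def shift : Equiv.Perm (ℤ → G) where
  toFun f i := f (i - 1)
  invFun f i := f (i + 1)
  left_inv f := by funext i; simp
  right_inv f := by funext i; simp

/-- multiplication of the cell at the origin -/
def bump : G →* Equiv.Perm (ℤ → G) :=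
  (MulAction.toPermHom (ℤ → G) (ℤ → G)).comp (MonoidHom.mulSingle (fun _ : ℤ => G) 0)

theorem bump_zero (g : G) (f : ℤ → G) : bump g f 0 = g * f 0 := by simp [bump]

theorem bump_ne (g : G) (f : ℤ → G) {i : ℤ} (h : i ≠ 0) : bump g f i = f i := by
  simp [bump, Pi.mulSingle_eq_of_ne h]

/-- letters -/
def P1 : Coprod (FreeMonoid X) G →* FreeMonoid X := Coprod.lift (MonoidHom.id _) 1

/-- tape -/
def P2 : Coprod (FreeMonoid X) G →* Equiv.Perm (ℤ → G) :=
  Coprod.lift (FreeMonoid.lift fun _ => shift) bump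

/-- outer letter -/
def ou (a : X) : Coprod (FreeMonoid X) G := Coprod.inl (FreeMonoid.of a)

@[simp] theorem P1_ou (a : X) : P1 (ou a : Coprod (FreeMonoid X) G) = FreeMonoid.of a := by
  simp [P1, ou]
@[simp] theorem P1_inr (g : G) : P1 (Coprod.inr g : Coprod (FreeMonoid X) G) = 1 := by
  simp [P1]
@[simp] theorem P2_ou (a : X) : P2 (ou a : Coprod (FreeMonoid X) G) = shift := by
  simp [P2, ou]
@[simp] theorem P2_inr (g : G) : P2 (Coprod.inr g : Coprod (FreeMonoid X) G) = bump g := by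
  simp [P2]

theorem C_ind {Q : Coprod (FreeMonoid X) G → Prop} (h1 : Q 1) (ho : ∀ a w, Q w → Q (ou a * w))
    (hi : ∀ g w, Q w → Q (Coprod.inr g * w)) (w) : Q w := by
  have : ∀ g : Coprod (FreeMonoid X) G, ∀ w, Q w → Q (g * w) := by
    intro g
    induction g using Coprod.induction_on with
    | inl m =>
      induction m using FreeMonoid.inductionOn' with
      | one => intro w hw; simpa using hw
      | of_mul a m ih => intro w hw; rw [map_mul, mul_assoc]; exact ho a _ (ih w hw)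
    | inr m => exact hi m
    | mul x y hx hy => intro w hw; rw [mul_assoc]; exact hx _ (hy w hw)
  simpa using this w 1 h1

theorem W_inv (w : Coprod (FreeMonoid X) G) : ∀ i, i < 0 → P2 w 1 i = 1 := by
  induction w using C_ind with
  | h1 => simp
  | ho a w ih =>
    simp only [map_mul, P2_ou, Equiv.Perm.mul_apply]
    exact fun i hi => ih (i - 1) (by omega)
  | hi g w ih =>
    simp only [map_mul, P2_inr, Equiv.Perm.mul_apply]
    exact fun i hi => by rw [bump_ne _ _ hi.ne, ih i hi]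

/-- rebuilding an element -/
def Rb : List X → (ℕ → G) → Coprod (FreeMonoid X) G
  | [], f => Coprod.inr (f 0)
  | a :: l, f => Coprod.inr (f 0) * (ou a * Rb l fun i => f (i + 1))

theorem rebuild (w : Coprod (FreeMonoid X) G) : w = Rb (P1 w).toList fun n => P2 w 1 n := by
  induction w using C_ind with
  | h1 => simp [Rb]
  | ho a w ih =>
    simp only [map_mul, P1_ou, P2_ou, FreeMonoid.toList_of_mul, Rb, Equiv.Perm.mul_apply]
    have e1 : shift (P2 w 1) ((0 : ℕ) : ℤ) = 1 := W_inv w _ (by simp)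
    have e2 : (fun i : ℕ => shift (P2 w 1) ((i + 1 : ℕ) : ℤ)) = fun n : ℕ => P2 w 1 n := by
      funext i; simp [shift]
    rw [e1, e2, ← ih]; simp
  | hi g w ih =>
    simp only [map_mul, P1_inr, P2_inr, one_mul, Equiv.Perm.mul_apply]
    have e2 : (fun i : ℕ => bump g (P2 w 1) ((i + 1 : ℕ) : ℤ)) =
        fun n : ℕ => P2 w 1 ((n + 1 : ℕ) : ℤ) := by
      funext i; exact bump_ne _ _ (by omega)
    conv_lhs => rw [ih]
    cases (P1 w).toList with
    | nil => simp [Rb, bump_zero]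
    | cons a l => simp only [Rb, e2, Nat.cast_zero, bump_zero, map_mul, mul_assoc]

/-- embedding of the free product -/
def jC : Coprod (FreeMonoid X) G →* FreeGroup X × Equiv.Perm (ℤ → G) :=
  ((FreeMonoid.lift FreeGroup.of).comp P1).prod P2

theorem jC_inj : Function.Injective (jC : Coprod (FreeMonoid X) G → _) := by
  intro u v h
  have h1 : P1 u = P1 v := toFree_inj (congrArg Prod.fst h)
  have h2 : P2 u = P2 v := congrArg Prod.snd h
  rw [rebuild u, rebuild v, ← h1, ← h2, ← rebuild u]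

/-- number of free letters -/
def len (c : Coprod (FreeMonoid X) G) : ℕ := (P1 c).length

theorem len_inr (g : G) : len (Coprod.inr g : Coprod (FreeMonoid X) G) = 0 := by simp [len]

theorem len_spl (g : G) (a : X) (c : Coprod (FreeMonoid X) G) :
    len (Coprod.inr g * ou a * c) = len c + 1 := by simp [len, add_comm]

theorem cancel {g g' : G} {a a' : X} {c c' : Coprod (FreeMonoid X) G}
    (h : Coprod.inr g * ou a * c = Coprod.inr g' * ou a' * c') : g = g' ∧ a = a' ∧ c = c' := by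
  have h1 := congrArg (fun c => (P1 c).toList) h
  simp only [map_mul, P1_inr, P1_ou, one_mul, FreeMonoid.toList_of_mul, List.cons.injEq] at h1
  have h2 := congrArg (fun c => P2 c 1 0) h
  have e : ∀ c : Coprod (FreeMonoid X) G, shift (P2 c 1) 0 = 1 := fun c => W_inv c _ (by simp)
  simp only [map_mul, P2_inr, P2_ou, Equiv.Perm.mul_apply, bump_zero, e, mul_one] at h2
  obtain ⟨rfl, -⟩ := h1
  subst h2
  refine ⟨rfl, rfl, jC_inj ?_⟩
  have := congrArg jC h
  simpa using this

/-- closed sets of remainders -/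
def Cl (S : Set (Coprod (FreeMonoid X) G)) : Prop :=
  ∀ c ∈ S, (∃ g, c = Coprod.inr g) ∨ ∃ g a, ∃ c' ∈ S, c = Coprod.inr g * ou a * c'

theorem exists_cl (c : Coprod (FreeMonoid X) G) : ∃ S, S.Finite ∧ Cl S ∧ c ∈ S := by
  induction c using C_ind with
  | h1 => exact ⟨{1}, Set.finite_singleton _, fun c hc => Or.inl ⟨1, by simpa using hc⟩, rfl⟩
  | ho a w ih =>
    obtain ⟨S, h1, h2, h3⟩ := ih
    refine ⟨insert (ou a * w) S, h1.insert _, ?_, Set.mem_insert _ _⟩
    rintro c (rfl | hc)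
    · exact Or.inr ⟨1, a, w, Or.inr h3, by simp⟩
    · exact (h2 c hc).imp id fun ⟨g, a, c', h, e⟩ => ⟨g, a, c', Or.inr h, e⟩
  | hi g w ih =>
    obtain ⟨S, h1, h2, h3⟩ := ih
    refine ⟨insert (Coprod.inr g * w) S, h1.insert _, ?_, Set.mem_insert _ _⟩
    rintro c (rfl | hc)
    · rcases h2 w h3 with ⟨g', rfl⟩ | ⟨g', a, c', h, rfl⟩
      · exact Or.inl ⟨g * g', by simp⟩
      · exact Or.inr ⟨g * g', a, c', Or.inr h, by simp [mul_assoc]⟩
    · exact (h2 c hc).imp id fun ⟨g, a, c', h, e⟩ => ⟨g, a, c', Or.inr h, e⟩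

variable {A : Type*}

/-- value of a word -/
def ev (φ : A → Coprod (FreeMonoid X) G) (u : List A) : Coprod (FreeMonoid X) G := (u.map φ).prod

@[simp] theorem ev_nil (φ : A → Coprod (FreeMonoid X) G) : ev φ [] = 1 := rfl
@[simp] theorem ev_cons (φ : A → Coprod (FreeMonoid X) G) (g u) :
    ev φ (g :: u) = φ g * ev φ u := rfl
@[simp] theorem ev_append (φ : A → Coprod (FreeMonoid X) G) (u v) :
    ev φ (u ++ v) = ev φ u * ev φ v := by simp [ev]

theorem jC_ev (φ : A → Coprod (FreeMonoid X) G) (u : List A) :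
    jC (ev φ u) = val (fun a => jC (φ a)) u := by
  induction u with
  | nil => simp
  | cons a u ih => simp [ih]

/-- pure letters -/
abbrev Pu (φ : A → Coprod (FreeMonoid X) G) : Type _ := {a // ∃ g, φ a = Coprod.inr g}

theorem splitting (φ : A → Coprod (FreeMonoid X) G) {S : Set (Coprod (FreeMonoid X) G)}
    (hS : Cl S) (hφ : ∀ a, φ a ∈ S) {c} (hc : c ∈ S) (u : List A) :
    (∃ w : List (Pu φ), u = w.map Subtype.val ∧ len (c * ev φ u) = 0) ∨
    ∃ (w : List (Pu φ)) (σ : Option A) (u' : List A) (g : G) (a : X), ∃ c' ∈ S,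
      u = w.map Subtype.val ++ σ.toList ++ u' ∧
      c * ev φ (w.map Subtype.val ++ σ.toList) = Coprod.inr g * ou a * c' := by
  rcases hS c hc with ⟨g, rfl⟩ | ⟨g, a, c', h, rfl⟩
  swap
  · exact Or.inr ⟨[], none, u, g, a, c', h, rfl, by simp⟩
  clear hc
  induction u generalizing g with
  | nil => exact Or.inl ⟨[], rfl, by simpa using len_inr g⟩
  | cons b u ih =>
    rcases hS _ (hφ b) with ⟨g', e⟩ | ⟨g', a, c', h, e⟩
    · rcases ih (g * g') with ⟨w, h1, h2⟩ | ⟨w, σ, u', g1, a, c', h, h1, h2⟩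
      · exact Or.inl ⟨⟨b, g', e⟩ :: w, by simp [h1], by simpa [e, mul_assoc] using h2⟩
      · exact Or.inr ⟨⟨b, g', e⟩ :: w, σ, u', g1, a, c', h, by simp [h1],
          by simpa [e, mul_assoc] using h2⟩
    · exact Or.inr ⟨[], some b, u, g * g', a, c', h, rfl, by simp [e, mul_assoc]⟩

theorem main_fng' [Finite A] (H1 : Subgroup G) [H1.FiniteIndex] [Group.IsNilpotent H1]
    (φ : A → Coprod (FreeMonoid X) G) :
    (R (fun a => jC (φ a)) ⊥).IsFinitelyNormallyGenerated := by
  set R1 := R (fun a => jC (φ a)) ⊥ with hR1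
  have rel : ∀ u v, ev φ u = ev φ v → pos u * (pos v)⁻¹ ∈ R1 := fun u v h =>
    subset_normalClosure ⟨u, v, by rw [← jC_ev, ← jC_ev, h]; simp, rfl⟩
  let φ0 : Pu φ → G := fun a => a.2.choose
  have hφ0 : ∀ w : List (Pu φ), ev φ (w.map Subtype.val) = Coprod.inr (val φ0 w) := by
    intro w
    induction w with
    | nil => simp
    | cons a w ih => rw [List.map_cons, ev_cons, ih, val_cons, map_mul, a.2.choose_spec]
  let i : FreeGroup (Pu φ) →* FreeGroup A := FreeGroup.map Subtype.val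
  have hi : ∀ w, i (pos w) = pos (w.map Subtype.val) := by
    intro w
    induction w with
    | nil => simp [pos]
    | cons a w ih => simp only [pos, val_cons, map_mul, List.map_cons] at ih ⊢; rw [ih]; simp [i]
  have hi0 : R φ0 ⊥ ≤ R1.comap i := by
    refine normalClosure_le_normal ?_
    rintro _ ⟨u, v, h, rfl⟩
    rw [SetLike.mem_coe, mem_comap, map_mul, map_inv, hi, hi]
    refine rel _ _ ?_
    rw [hφ0, hφ0, mul_inv_eq_one.mp (mem_bot.mp h)]
  obtain ⟨hF, hN⟩ := vnil H1 φ0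
  choose Z hZf hZR hZ using fam i _ R1 hF hN hi0
  obtain ⟨S, hSf, hS, h1S, hφS⟩ : ∃ S : Set (Coprod (FreeMonoid X) G), S.Finite ∧ Cl S ∧ 1 ∈ S ∧
      ∀ a, φ a ∈ S := by
    choose T h1 h2 h3 using exists_cl (X := X) (G := G)
    refine ⟨T 1 ∪ ⋃ a, T (φ a), (h1 _).union (Set.finite_iUnion fun a => h1 _), ?_,
      Or.inl (h3 _), fun a => Or.inr (Set.mem_iUnion.mpr ⟨a, h3 _⟩)⟩
    rintro c (hc | hc)
    · exact (h2 _ c hc).imp id fun ⟨g, a, c', h, e⟩ => ⟨g, a, c', Or.inl h, e⟩
    · obtain ⟨b, hc⟩ := Set.mem_iUnion.mp hc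
      exact (h2 _ c hc).imp id fun ⟨g, a, c', h, e⟩ =>
        ⟨g, a, c', Or.inr (Set.mem_iUnion.mpr ⟨b, h⟩), e⟩
  let Re : Coprod (FreeMonoid X) G → Coprod (FreeMonoid X) G → Prop := fun c d =>
    ∃ u v π, ev φ u = π * c ∧ ev φ v = π * d
  have hκ : ∀ c d, ∃ k : FreeGroup A, Re c d → ∀ u v, c * ev φ u = d * ev φ v →
      k * pos u * (pos v)⁻¹ ∈ R1 := by
    intro c d
    by_cases h : Re c d
    swap
    · exact ⟨1, fun h' => (h h').elim⟩
    obtain ⟨u1, v1, π, e1, e2⟩ := h
    refine ⟨(pos v1)⁻¹ * pos u1, fun _ u v h => ?_⟩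
    have := rel (u1 ++ u) (v1 ++ v) (by rw [ev_append, ev_append, e1, e2, mul_assoc, h, mul_assoc])
    have := normalClosure_normal.conj_mem _ this (pos v1)⁻¹
    convert this using 1
    simp only [pos_append]; group
  choose κ hκ using hκ
  let K1 : Set (FreeGroup A) := (fun p : _ × _ => κ p.1 p.2) '' (S ×ˢ S)
  have K1f : K1.Finite := (hSf.prod hSf).image _
  let K2 : Set (FreeGroup A) := insert 1 ((fun p : FreeGroup A × Option A × Option A =>
    pos p.2.1.toList * p.1⁻¹ * (pos p.2.2.toList)⁻¹) '' (K1 ×ˢ Set.univ))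
  have K2f : K2.Finite := ((K1f.prod Set.finite_univ).image _).insert _
  let ZZ : Set (FreeGroup A) := insert (κ 1 1) (⋃ k1 ∈ K1, ⋃ k2 ∈ K2, Z k1 k2)
  have re1 : Re 1 1 := ⟨[], [], 1, by simp, by simp⟩
  have sub : ∀ k1 ∈ K1, ∀ k2 ∈ K2, normalClosure (Z k1 k2) ≤ normalClosure ZZ :=
    fun k1 h1 k2 h2 => normalClosure_mono fun x hx =>
      Or.inr (Set.mem_biUnion h1 (Set.mem_biUnion h2 hx))
  have key : ∀ n, ∀ c ∈ S, ∀ d ∈ S, ∀ u v, len (c * ev φ u) = n → Re c d →
      c * ev φ u = d * ev φ v → κ c d * pos u * (pos v)⁻¹ ∈ normalClosure ZZ := by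
    intro n
    induction n using Nat.strong_induction_on with
    | _ n ih =>
      intro c hc d hd u v hn hre h
      have f1 := hκ c d hre u v h
      have m1 : κ c d ∈ K1 := ⟨(c, d), ⟨hc, hd⟩, rfl⟩
      rcases splitting φ hS hφS hc u with ⟨w, rfl, l1⟩ | ⟨w, σ, u', g, a, c', hc', rfl, e1⟩ <;>
      rcases splitting φ hS hφS hd v with
        ⟨w', rfl, l2⟩ | ⟨w', σ', v', g', a', d', hd', rfl, e2⟩
      · have := hZ (κ c d) 1 (pos w) (pos w') (by rw [hi, hi, mul_one]; exact f1)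
        rw [hi, hi, mul_one] at this
        exact sub _ m1 _ (Set.mem_insert _ _) this
      · rw [h, ev_append, ← mul_assoc, e2, mul_assoc, len_spl] at l1
        omega
      · rw [← h, ev_append, ← mul_assoc, e1, mul_assoc, len_spl] at l2
        omega
      · rw [ev_append, ← mul_assoc, e1, mul_assoc, len_spl] at hn
        rw [ev_append, ev_append φ _ v', ← mul_assoc, ← mul_assoc, e1, e2, mul_assoc _ c',
          mul_assoc _ d'] at h
        obtain ⟨rfl, rfl, h'⟩ := cancel h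
        have hre' : Re c' d' := by
          obtain ⟨u1, v1, π, p1, p2⟩ := hre
          exact ⟨u1 ++ (w.map Subtype.val ++ σ.toList), v1 ++ (w'.map Subtype.val ++ σ'.toList),
            π * (Coprod.inr g * ou a), by rw [ev_append, p1, mul_assoc, e1, mul_assoc π],
            by rw [ev_append, p2, mul_assoc, e2, mul_assoc π]⟩
        have f2 := hκ c' d' hre' u' v' h'
        have f3 := ih _ (by omega) c' hc' d' hd' u' v' rfl hre' h'
        set t := pos (w'.map Subtype.val ++ σ'.toList) with ht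
        have id1 : κ c d * pos (w.map Subtype.val ++ σ.toList ++ u') *
            (pos (w'.map Subtype.val ++ σ'.toList ++ v'))⁻¹ =
            κ c d * i (pos w) * (pos σ.toList * (κ c' d')⁻¹ * (pos σ'.toList)⁻¹) *
              (i (pos w'))⁻¹ * (t * (κ c' d' * pos u' * (pos v')⁻¹) * t⁻¹) := by
          simp only [ht, hi, pos_append]; group
        rw [id1] at f1 ⊢
        have f4 := (R1.mul_mem_cancel_right (normalClosure_normal.conj_mem _ f2 t)).mp f1
        refine mul_mem (sub _ m1 _ ?_ (hZ _ _ _ _ f4)) (normalClosure_normal.conj_mem _ f3 t)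
        exact Or.inr ⟨(κ c' d', σ, σ'), ⟨⟨(c', d'), ⟨hc', hd'⟩, rfl⟩, trivial⟩, rfl⟩
  refine ⟨ZZ, (K1f.biUnion fun k1 _ => K2f.biUnion fun k2 _ => hZf k1 k2).insert _,
    le_antisymm (normalClosure_le_normal ?_) (normalClosure_le_normal ?_)⟩
  · rintro x (rfl | hx)
    · simpa [pos] using hκ 1 1 re1 [] [] rfl
    · simp only [Set.mem_iUnion] at hx
      obtain ⟨k1, -, k2, -, hx⟩ := hx
      exact hZR k1 k2 hx
  · rintro _ ⟨u, v, h, rfl⟩
    have e : ev φ u = ev φ v := jC_inj (by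
      rw [jC_ev, jC_ev]; exact mul_inv_eq_one.mp (mem_bot.mp h))
    have := key _ 1 h1S 1 h1S u v rfl re1 (by rw [e])
    rw [mul_assoc] at this
    exact ((normalClosure ZZ).mul_mem_cancel_left
      (subset_normalClosure (Set.mem_insert _ _))).mp this

end Pool.Agent.H.MP_e5a626_al.Gen
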