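import Pool.Agent.H.MP_62749c_al.Main

set_option maxHeartbeats 400000

namespace Pool.Agent.H.MP_e5a626_al

open Pool.Agent.H.MP_62749c_al Subgroup

section Grp
variable {G : Type*} [Group G]

/-- every subgroup is finitely generated modulo `M` -/
def Noeth (M : Subgroup G) : Prop :=
  ∀ K : Subgroup G, ∃ W : Set G, W.Finite ∧ W ⊆ K ∧ K ≤ closure W ⊔ M

theorem noeth_step (P M M' : Subgroup G) [P.Normal] [P.FiniteIndex] [M.Normal] [M'.Normal]
    (hP : P.FG) (h1 : M' ≤ P) (h2 : ⁅M', P⁆ ≤ M) (h3 : M'.IsFinitelyNormallyGenerated)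
    (h4 : Noeth M') : Noeth M := by
  obtain ⟨Z, -, hZM, h⟩ := core0 P M M' hP h1 h2 h3
  intro K
  obtain ⟨W, hW, hWK, hK⟩ := h4 K
  obtain ⟨W', hW', hWK', hK'⟩ := h (K ⊓ M') inf_le_right
  refine ⟨W ∪ W', hW.union hW', Set.union_subset hWK fun x hx => (hWK' hx).1, fun k hk => ?_⟩
  have := hK hk
  rw [← SetLike.mem_coe, mul_normal] at this
  obtain ⟨c, hc, m, hm, rfl⟩ := this
  have hcK : c ∈ K := (closure_le K).mpr hWK hc
  have hmK : m ∈ K := (K.mul_mem_cancel_left hcK).mp hk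
  refine mul_mem (mem_sup_left (Subgroup.closure_mono Set.subset_union_left hc)) ?_
  exact sup_le_sup (Subgroup.closure_mono Set.subset_union_right) (normalClosure_le_normal hZM)
    (hK' ⟨hmK, hm⟩)

theorem noeth_fi (P : Subgroup G) [P.Normal] [P.FiniteIndex] : Noeth P := by
  intro K
  let π := QuotientGroup.mk' P
  obtain ⟨W, hWK, hW, hWe⟩ := Set.Finite.exists_subset_finite_image_eq
    (Set.toFinite (π '' K)) subset_rfl
  refine ⟨W, hW, hWK, fun k hk => ?_⟩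
  obtain ⟨w, hw, e⟩ : π k ∈ π '' W := hWe ▸ ⟨k, hk, rfl⟩
  have : w⁻¹ * k ∈ P := QuotientGroup.eq.mp e
  simpa using mul_mem (mem_sup_left (subset_closure hw)) (mem_sup_right this :
    w⁻¹ * k ∈ closure W ⊔ P)

end Grp

theorem vnil {A G : Type*} [Finite A] [Group G] (H1 : Subgroup G) [H1.FiniteIndex]
    [Group.IsNilpotent H1] (φ : A → G) :
    (R φ ⊥).IsFinitelyNormallyGenerated ∧ Noeth (R φ ⊥) := by
  set H0 := H1.normalCore with hH0
  haveI : Group.IsNilpotent H0 :=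
    nilpotent_of_mulEquiv (subgroupOfEquivOfLe (H1.normalCore_le))
  obtain ⟨c, hc⟩ := (isNilpotent_iff_lowerCentralSeries H0).mp inferInstance
  set P := H0.comap (FreeGroup.lift φ) with hP
  haveI : P.FiniteIndex := ⟨by
    rw [hP, index_comap]
    exact (FiniteIndex.index_ne_zero (H := H0.subgroupOf (FreeGroup.lift φ).range))⟩
  have hfg : P.FG := (Group.fg_iff_subgroup_fg P).mp inferInstance
  have e : R φ H0 = P := le_antisymm (R_le φ H0) (gen_pos P _ fun w hw =>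
    subset_normalClosure ⟨w, [], by simpa [hP] using hw, by simp [pos]⟩)
  rw [← hc]
  clear hc
  induction c with
  | zero =>
    rw [Subgroup.lowerCentralSeries_zero, e]
    exact ⟨IsFinitelyNormallyGenerated.of_FG P, noeth_fi P⟩
  | succ c ih =>
    haveI := lcs_normal H0 c
    have h0 := H0.lowerCentralSeries_antitone (Nat.le_succ c)
    have h1 : H0.lowerCentralSeries c ≤ H0 := H0.lowerCentralSeries_antitone (Nat.zero_le c)
    have h2 : ⁅H0.lowerCentralSeries c, H0⁆ ≤ H0.lowerCentralSeries (c + 1) := le_rfl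
    exact ⟨step_fng φ _ _ H0 h0 h1 h2 ih.1, noeth_step P _ _ hfg
      ((R_le φ _).trans (comap_mono h1)) (comm_step φ _ _ H0 h2) ih.1 ih.2⟩

theorem fam {Φ0 Φ : Type*} [Group Φ0] [Group Φ] (i : Φ0 →* Φ) (R0 : Subgroup Φ0)
    (R1 : Subgroup Φ) [R1.Normal] (h0 : R0.IsFinitelyNormallyGenerated) (hN : Noeth R0)
    (hi : R0 ≤ R1.comap i) (k1 k2 : Φ) :
    ∃ Z : Set Φ, Z.Finite ∧ Z ⊆ R1 ∧ ∀ w w' : Φ0, k1 * i w * k2 * (i w')⁻¹ ∈ R1 →
      k1 * i w * k2 * (i w')⁻¹ ∈ normalClosure Z := by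
  by_cases hex : ∃ w w' : Φ0, k1 * i w * k2 * (i w')⁻¹ ∈ R1
  swap
  · exact ⟨∅, Set.finite_empty, Set.empty_subset _, fun w w' h => (hex ⟨w, w', h⟩).elim⟩
  obtain ⟨w0, w0', hw0⟩ := hex
  obtain ⟨Z0, hZ0, rfl⟩ := h0
  let KK : (N : Subgroup Φ) → [N.Normal] → Subgroup Φ0 := fun N hN =>
    { carrier := {h | ∃ h', k1 * i h * k1⁻¹ * (i h')⁻¹ ∈ N}
      one_mem' := ⟨1, by simp⟩
      mul_mem' := by
        rintro a b ⟨a', ha⟩ ⟨b', hb⟩
        refine ⟨a' * b', ?_⟩
        have := mul_mem ha (hN.conj_mem _ hb (i a'))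
        convert this using 1
        simp only [map_mul]; group
      inv_mem' := by
        rintro a ⟨a', ha⟩
        refine ⟨a'⁻¹, ?_⟩
        have := hN.conj_mem _ (inv_mem ha) (i a')⁻¹
        convert this using 1
        simp only [map_inv]; group }
  obtain ⟨W, hW, hWK, hK⟩ := hN (KK R1)
  obtain ⟨V, hV, hVK, hK'⟩ := hN (R1.comap i)
  have : ∀ h ∈ W, ∃ h', k1 * i h * k1⁻¹ * (i h')⁻¹ ∈ R1 := hWK
  choose! f hf using this
  set Z : Set Φ := (fun h => k1 * i h * k1⁻¹ * (i (f h))⁻¹) '' W ∪ i '' (V ∪ Z0) ∪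
    {k1 * i w0 * k2 * (i w0')⁻¹} with hZ
  have hZR : Z ⊆ R1 := by
    rintro _ ((⟨h, hh, rfl⟩ | ⟨h, hh | hh, rfl⟩) | rfl)
    · exact hf h hh
    · exact hVK hh
    · exact hi (subset_normalClosure hh)
    · exact hw0
  refine ⟨Z, ((hW.image _).union ((hV.union hZ0).image _)).union (Set.finite_singleton _), hZR,
    fun w w' h => ?_⟩
  have a0 : normalClosure Z0 ≤ (normalClosure Z).comap i :=
    normalClosure_le_normal fun x hx => subset_normalClosure (Or.inl (Or.inr ⟨x, Or.inr hx, rfl⟩))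
  have a1 : KK R1 ≤ KK (normalClosure Z) := by
    refine hK.trans (sup_le ((closure_le _).mpr fun x hx =>
      ⟨f x, subset_normalClosure (Or.inl (Or.inl ⟨x, hx, rfl⟩))⟩) fun x hx => ⟨1, ?_⟩)
    simpa using normalClosure_normal.conj_mem _ (a0 hx) k1
  have a2 : R1.comap i ≤ (normalClosure Z).comap i :=
    hK'.trans (sup_le ((closure_le _).mpr fun x hx =>
      subset_normalClosure (Or.inl (Or.inr ⟨x, Or.inl hx, rfl⟩))) a0)
  have b0 : k1 * i w0 * k2 * (i w0')⁻¹ ∈ normalClosure Z := subset_normalClosure (Or.inr rfl)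
  have b1 : k1 * i (w * w0⁻¹) * k1⁻¹ * (i (w' * w0'⁻¹))⁻¹ ∈ R1 := by
    have := mul_mem h (Normal.conj_mem ‹R1.Normal› _ (inv_mem hw0) (i w' * (i w0')⁻¹))
    convert this using 1
    simp only [map_mul, map_inv]; group
  obtain ⟨h'', b2⟩ := a1 ⟨_, b1⟩
  have b3 : i (h'' * (w' * w0'⁻¹)⁻¹) ∈ R1 := by
    have := mul_mem (inv_mem (normalClosure_le_normal hZR b2)) b1
    convert this using 1
    simp only [map_mul, map_inv]; group
  have := mul_mem (mul_mem b2 (a2 b3))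
    (normalClosure_normal.conj_mem _ b0 (i w' * (i w0')⁻¹))
  convert this using 1
  simp only [map_mul, map_inv]; group

end Pool.Agent.H.MP_e5a626_al
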